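import Pool.Agent.Run7.h823.NG.S2
import Pool.Agent.Run7.h823.WF.Ex

/-!
Examples of families of residues with small Fourier coefficients, and the positive proportion of multiplicities which are
good for all numbers of points.
-/

set_option autoImplicit false
set_option linter.unusedSectionVars false

namespace Pool.Agent.Run7.h823.NG

open Finset Filter

/-- zero is not a target -/
lemma not_tgt_zero : ¬ Tgt 0 := by
  intro h
  obtain ⟨z, h1, h2⟩ := h 1 (by decide)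
  have e1 : rad 1 = 2 := rfl
  have e2 : cell 1 = 350 := rfl
  rw [e1, e2] at h1 h2
  have h3 : (1.41 : ℝ) < √((2 : ℕ) : ℝ) := by
    apply Real.lt_sqrt_of_sq_lt
    norm_num
  have h4 : √((2 : ℕ) : ℝ) < 1.42 := by
    rw [Real.sqrt_lt' (by norm_num)]
    norm_num
  push_cast at h1 h2 h3 h4
  have h5 : (0 : ℝ) < z := by linarith
  have h6 : (z : ℝ) < 1 := by linarith
  have h7 : (0 : ℤ) < z := by exact_mod_cast h5
  have h8 : z < 1 := by exact_mod_cast h6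
  omega

/-- a positive proportion -/
theorem tgt_flat : ∃ K : ℕ, 0 < K ∧ ∀ (q : ℕ) [NeZero q], K ≤ q → ∀ (τ : Type) (s : Finset τ) (y : τ → ZMod q),
    Flat1 q (1 / (K * Real.log q)) s y → ∀ c : ℤ,
      1 / 10000 ^ 22 * (s.card : ℝ) ≤ ({i : τ | i ∈ s ∧ Tgt (c + ((y i).val : ℕ))}.ncard : ℝ) := by
  apply transferS Tgt (fun a b => 1 / 10000 ^ 22 * (a : ℝ) ≤ (b : ℝ))
  intro S v h
  exact tgt_of_freq fun θ hθ => h θ hθ.1 hθ.2.isAlgebraic

/-- powers of `q` and the logarithm -/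
lemma pow_log {β : ℝ} (hβ : 0 < β) {K : ℕ} (hK : 0 < K) : ∃ m₁ : ℕ, ∀ m : ℕ, m₁ ≤ m →
    (m : ℝ) ^ (-β) ≤ 1 / (K * Real.log m) := by
  have h1 : Tendsto (fun x : ℝ => Real.log x / x ^ β) atTop (nhds 0) :=
    (isLittleO_log_rpow_atTop hβ).tendsto_div_nhds_zero
  have h2 := h1.comp tendsto_natCast_atTop_atTop
  have hK0 : (0 : ℝ) < K := by exact_mod_cast hK
  have h3 : ∀ᶠ m : ℕ in atTop, Real.log m / (m : ℝ) ^ β < 1 / (K : ℝ) := h2.eventually_lt_const (by positivity)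
  obtain ⟨m₁, hm₁⟩ := eventually_atTop.1 h3
  refine ⟨m₁ + 3, fun m hm => ?_⟩
  have h4 := hm₁ m (by omega)
  have hm3 : (3 : ℝ) ≤ m := by exact_mod_cast (by omega : 3 ≤ m)
  have hm0 : (0 : ℝ) < m := by linarith
  have hlog : 0 < Real.log m := Real.log_pos (by linarith)
  have hp : (0 : ℝ) < (m : ℝ) ^ β := Real.rpow_pos_of_pos hm0 _
  rw [div_lt_div_iff₀ hp hK0] at h4
  rw [Real.rpow_neg hm0.le, inv_eq_one_div, div_le_div_iff₀ hp (by positivity)]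
  nlinarith

lemma Flat1.mono {τ : Type} {q : ℕ} [NeZero q] {η η' : ℝ} {s : Finset τ} {y : τ → ZMod q} (h : Flat1 q η s y)
    (hle : η ≤ η') : Flat1 q η' s y :=
  fun a ha => (h a ha).trans (mul_le_mul_of_nonneg_right hle (Nat.cast_nonneg _))

lemma flat1_of {τ : Type} {q : ℕ} [NeZero q] {η : ℝ} {s : Finset τ} {y : τ → ZMod q}
    (h : Pool.Agent.Run7.h823.WF.Flat q η s (fun i (_ : Unit) => y i)) : Flat1 q η s y := by
  intro a ha
  have h1 := h (fun _ => a) (fun h0 => ha (congrFun h0 ()))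
  simpa using h1

/-- **Examples.** Short linear recurrences. -/
theorem ex_rec (k K : ℕ) (hK : 0 < K) {δ : ℝ} (hδ : 0 < δ) : ∃ m₀ : ℕ, ∀ (m : ℕ) [Fact m.Prime], m₀ ≤ m →
    ∀ (c : Fin k → ZMod m) (g : Fin k → (ZMod m)ˣ) (N : ℕ), c ≠ 0 → (∀ i, (m : ℝ) ^ δ ≤ orderOf (g i)) →
    (∀ i j, i ≠ j → (m : ℝ) ^ δ ≤ orderOf (g i / g j)) → (m : ℝ) ^ δ ≤ N →
    Flat1 m (1 / (K * Real.log m)) (range N) (fun n => ∑ i, c i * (g i : ZMod m) ^ n) := by
  obtain ⟨β, hβ, m₀, h⟩ := Pool.Agent.Run7.h823.WF.flat_rec' k hδ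
  obtain ⟨m₁, hm₁⟩ := pow_log hβ hK
  refine ⟨m₀ + m₁, fun m _ hm c g N hc hg hgg hN => ?_⟩
  have h1 := h m (by omega) Unit (fun _ => c) g N (linearIndependent_unique_iff.2 hc) hg hgg hN
  exact (flat1_of h1).mono (hm₁ m (by omega))

/-- **Examples.** The powers of fixed integers modulo almost all primes. -/
theorem ex_pow (b K : ℕ) (hb : 2 ≤ b) (hK : 0 < K) {δ : ℝ} (hδ : 0 < δ) : ∃ C : ℝ, ∀ X : ℕ, 1 ≤ X → ∀ Q : Finset ℕ,
    (∀ m ∈ Q, m ≤ X ∧ ∃ _ : Fact m.Prime, ¬ ∀ N : ℕ, (m : ℝ) ^ δ ≤ N → ∀ x : ZMod m, x ≠ 0 →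
      Flat1 m (1 / (K * Real.log m)) (range N) (fun n => x * (b : ZMod m) ^ n)) →
    (Q.card : ℝ) ≤ C * (X : ℝ) ^ δ := by
  classical
  obtain ⟨β, hβ, h⟩ := Pool.Agent.Run7.h823.WF.flat_pow' Unit hδ
  obtain ⟨C, hC⟩ := h (fun _ => b) (fun _ => hb) (fun _ _ _ => rfl)
  obtain ⟨m₁, hm₁⟩ := pow_log hβ hK
  refine ⟨C + m₁, fun X hX Q hQ => ?_⟩
  have hX1 : (1 : ℝ) ≤ (X : ℝ) ^ δ := Real.one_le_rpow (by exact_mod_cast hX) hδ.le
  have h1 := hC X hX (Q.filter fun m => m₁ ≤ m) (by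
    intro m hm
    rw [mem_filter] at hm
    obtain ⟨g1, g2, g3⟩ := hQ m hm.1
    refine ⟨g1, g2, fun g4 => g3 fun N hN x hx => ?_⟩
    exact (flat1_of (g4 N hN (fun _ => x) (fun _ => hx))).mono (hm₁ m hm.2))
  have h2 : ((Q.filter fun m => ¬ m₁ ≤ m).card : ℝ) ≤ m₁ := by
    have h3 : (Q.filter fun m => ¬ m₁ ≤ m) ⊆ range m₁ := by
      intro m hm
      rw [mem_filter] at hm
      exact mem_range.2 (by omega)
    have h4 := card_le_card h3
    rw [card_range] at h4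
    exact_mod_cast h4
  have h3 := card_filter_add_card_filter_not (s := Q) (fun m => m₁ ≤ m)
  have h4 : (Q.card : ℝ) = ((Q.filter fun m => m₁ ≤ m).card : ℝ) + ((Q.filter fun m => ¬ m₁ ≤ m).card : ℝ) := by
    rw [← h3]
    push_cast
    ring
  rw [h4, add_mul]
  have h5 : (m₁ : ℝ) ≤ m₁ * (X : ℝ) ^ δ := by
    have : (0 : ℝ) ≤ m₁ := Nat.cast_nonneg _
    nlinarith
  linarith

end Pool.Agent.Run7.h823.NG
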