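import Pool.Agent.Run7.h823.NG.S2

/-!
Windows for the members of families of residues with small Fourier coefficients.
-/

set_option autoImplicit false

namespace Pool.Agent.Run7.h823.NG

open Finset Filter

/-- a window for the multiples by an irrational algebraic number -/
theorem win_flat {α : ℝ} (hirr : Irrational α) (halg : IsAlgebraic ℤ α) (β : ℝ) {lo hi : ℝ} (hlh : lo ≤ hi)
    {bad : ℕ → Prop}
    (hbad : ∀ m : ℕ, 1 ≤ m → bad m → ∃ z : ℤ, lo ≤ α * m + β - z ∧ α * m + β - z ≤ hi)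
    {δ : ℝ} (hδ : 0 < δ) : ∃ K : ℕ, 0 < K ∧ ∀ (q : ℕ) [NeZero q], K ≤ q →
    ∀ (τ : Type) (s : Finset τ) (y : τ → ZMod q), Flat1 q (1 / (K * Real.log q)) s y → ∀ c : ℤ,
      ({i : τ | i ∈ s ∧ ∃ m : ℕ, 1 ≤ m ∧ (m : ℤ) = c + ((y i).val : ℕ) ∧ bad m}.ncard : ℝ) ≤
        (hi - lo + δ) * (s.card : ℝ) := by
  apply transferS (fun z => ∃ m : ℕ, 1 ≤ m ∧ (m : ℤ) = z ∧ bad m) (fun a b => (b : ℝ) ≤ (hi - lo + δ) * (a : ℝ))
  intro S v h
  exact count_seq h hirr halg β hlh hbad hδ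

/-- nothing is bad -/
theorem none_flat {bad : ℕ → Prop} (hbad : ∀ m : ℕ, 1 ≤ m → ¬ bad m) {δ : ℝ} (hδ : 0 < δ) :
    ∃ K : ℕ, 0 < K ∧ ∀ (q : ℕ) [NeZero q], K ≤ q →
    ∀ (τ : Type) (s : Finset τ) (y : τ → ZMod q), Flat1 q (1 / (K * Real.log q)) s y → ∀ c : ℤ,
      ({i : τ | i ∈ s ∧ ∃ m : ℕ, 1 ≤ m ∧ (m : ℤ) = c + ((y i).val : ℕ) ∧ bad m}.ncard : ℝ) ≤
        δ * (s.card : ℝ) := by
  refine ⟨1, one_pos, fun q _ _ τ s y _ c => ?_⟩
  have : {i : τ | i ∈ s ∧ ∃ m : ℕ, 1 ≤ m ∧ (m : ℤ) = c + ((y i).val : ℕ) ∧ bad m} = ∅ := by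
    rw [Set.eq_empty_iff_forall_notMem]
    rintro t ⟨_, m, hm, _, hb⟩
    exact hbad m hm hb
  rw [this, Set.ncard_empty, Nat.cast_zero]
  positivity

theorem alg_root (n : ℕ) : IsAlgebraic ℤ √(n : ℝ) := (sqrt_int n).isAlgebraic

theorem alg_third (n : ℕ) : IsAlgebraic ℤ (√(n : ℝ) / 3) := by
  refine ⟨Polynomial.C 9 * Polynomial.X ^ 2 - Polynomial.C (n : ℤ), ?_, ?_⟩
  · intro h0
    have h1 := congrArg (fun Q : Polynomial ℤ => Q.coeff 2) h0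
    rw [Polynomial.coeff_sub, Polynomial.coeff_C_mul, Polynomial.coeff_X_pow,
      Polynomial.coeff_C] at h1
    norm_num at h1
  · have h1 : (√(n : ℝ)) ^ 2 = n := Real.sq_sqrt (Nat.cast_nonneg n)
    simp only [map_sub, map_mul, map_pow, Polynomial.aeval_X, map_natCast, map_ofNat]
    rw [div_pow, h1]
    norm_num
    ring

end Pool.Agent.Run7.h823.NG
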