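import Pool.Agent.Run7.h823.NG.S1
import Pool.Agent.Results.MP_d03834_ag.EffectiveEveryField
import Pool.Agent.TH885.NW.Exp2
import Pool.Agent.H932R3.NearFinal

/-!
(The statements and proofs of this file are copied from `Pool.Agent.N141.SG` (One, Num, Near, Seq5) of helper141, with
fewer imports.)

The multiplicities, and the sums of near-uniform multiplicities, for which the expected dimension of the space of plane
curves is not known: windows for the fractional parts of the multiples by square roots.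
-/

set_option autoImplicit false

namespace Pool.Agent.Run7.h823.NG

open Finset Filter
open Pool.Agent.TH885.NW (loW upW win_len exp_near2)
open Pool.Agent.Results.MP_d03834_ag.EffectiveEveryField (Open generic)

theorem lo_le {s : ℝ} (_ : 3 ≤ s) : min (s - 3) (2 / 3 + 9 / (4 * s)) ≤ 1.203 := by
  rcases le_or_gt s 4.2 with h | h
  · exact (min_le_left _ _).trans (by linarith)
  · refine (min_le_right _ _).trans ?_
    have h1 : 9 / (4 * s) ≤ 9 / (4 * 4.2) := by
      apply div_le_div_of_nonneg_left (by norm_num) (by norm_num) (by linarith)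
    have h2 : (9 : ℝ) / (4 * 4.2) ≤ 0.5358 := by norm_num
    linarith

theorem up_le {s : ℝ} (_ : 3 ≤ s) : min (s - 3) (2 / 3 + 1 / (4 * s)) ≤ 0.75 := by
  rcases le_or_gt s 3.75 with h | h
  · exact (min_le_left _ _).trans (by linarith)
  · refine (min_le_right _ _).trans ?_
    have h1 : 1 / (4 * s) ≤ 1 / (4 * 3.75) := by
      apply div_le_div_of_nonneg_left (by norm_num) (by norm_num) (by linarith)
    have h2 : (1 : ℝ) / (4 * 3.75) ≤ 0.067 := by norm_num
    linarith

theorem window {m : ℕ} (h : Tgt m) {n : ℕ} (j : Fin 21) (hj : (j : ℕ) ≠ 0) (t : ℕ)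
    (hn : n = rad j * t ^ 2) {lo up : ℝ} (hlo : lo < 1 + 2 * t * (((cell j : ℝ) - 6) / 10000))
    (hup : up < 1 - 2 * t * (((cell j : ℝ) + 1) / 10000)) (d : ℕ)
    (h1 : √(n : ℝ) * (2 * m + 1) - lo ≤ 2 * (d : ℝ) + 3)
    (h2 : 2 * (d : ℝ) + 3 ≤ √(n : ℝ) * (2 * m + 1) + up) : False := by
  obtain ⟨z, h3, h4⟩ := h j hj
  have hsq : √(n : ℝ) = √(rad j : ℝ) * t := by
    rw [hn]
    push_cast
    rw [Real.sqrt_mul (Nat.cast_nonneg _), Real.sqrt_sq (Nat.cast_nonneg _)]
  have e1 : √(n : ℝ) * (2 * m + 1) =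
      2 * t * (√(rad j : ℝ) * m + √(rad j : ℝ) / 2 - z) + ((2 * t * z : ℤ) : ℝ) := by
    rw [hsq]
    push_cast
    ring
  have ht : (0 : ℝ) ≤ 2 * t := by positivity
  push_cast at h3 h4
  have h5 := mul_le_mul_of_nonneg_left h3 ht
  have h6 := mul_le_mul_of_nonneg_left h4 ht
  rw [e1] at h1 h2
  have h7 : ((2 * t * z : ℤ) : ℝ) - 1 < ((2 * (d : ℤ) + 3 : ℤ) : ℝ) := by
    push_cast at h1 ⊢
    linarith
  have h8 : ((2 * (d : ℤ) + 3 : ℤ) : ℝ) < ((2 * t * z : ℤ) : ℝ) + 1 := by
    push_cast at h2 ⊢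
    linarith
  have h7' : 2 * (t : ℤ) * z - 1 < 2 * (d : ℤ) + 3 := by exact_mod_cast h7
  have h8' : 2 * (d : ℤ) + 3 < 2 * (t : ℤ) * z + 1 := by exact_mod_cast h8
  have h9 : 2 * (t : ℤ) * z = 2 * (t * z) := by ring
  rw [h9] at h7' h8'
  omega

theorem not_open {m : ℕ} (h : Tgt m) {n : ℕ} (hn : 10 ≤ n) (d : ℕ) : ¬ Open n m d := by
  rintro ⟨h1, h2, h3, -⟩
  push Not at h1
  obtain ⟨h37, h13, h21, hsq⟩ := h1
  have hs3 : (3 : ℝ) ≤ √(n : ℝ) := by
    apply Real.le_sqrt_of_sq_le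
    have : (10 : ℝ) ≤ n := by exact_mod_cast hn
    linarith
  have hlo := lo_le hs3
  have hup := up_le hs3
  have key : ∀ (j : Fin 21) (t : ℕ), (j : ℕ) ≠ 0 → n = rad j * t ^ 2 →
      (1.203 : ℝ) < 1 + 2 * t * (((cell j : ℝ) - 6) / 10000) →
      (0.75 : ℝ) < 1 - 2 * t * (((cell j : ℝ) + 1) / 10000) → False := by
    intro j t hj hnj hA hB
    exact window h j hj t hnj (lt_of_le_of_lt hlo hA) (lt_of_le_of_lt hup hB) d (by linarith)
      (by linarith)
  interval_cases n
  · exact key 6 1 (by decide) (by decide) (by norm_num [cell]) (by norm_num [cell])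
  · exact key 7 1 (by decide) (by decide) (by norm_num [cell]) (by norm_num [cell])
  · -- twelve
    have h4 : √((12 : ℕ) : ℝ) ≤ 3.5 := by
      rw [Real.sqrt_le_left (by norm_num)]
      norm_num
    refine window h (n := 12) 2 (by decide) 2 (by decide) (lo := 0.5) (up := 0.5) (by norm_num [cell])
      (by norm_num [cell]) d ?_ ?_
    · refine le_trans ?_ h2
      have := min_le_left (√((12 : ℕ) : ℝ) - 3) (2 / 3 + 9 / (4 * √((12 : ℕ) : ℝ)))
      linarith
    · refine h3.trans ?_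
      have := min_le_left (√((12 : ℕ) : ℝ) - 3) (2 / 3 + 1 / (4 * √((12 : ℕ) : ℝ)))
      linarith
  · exact h13 rfl
  · exact key 8 1 (by decide) (by decide) (by norm_num [cell]) (by norm_num [cell])
  · exact key 9 1 (by decide) (by decide) (by norm_num [cell]) (by norm_num [cell])
  · exact hsq ⟨4, rfl⟩
  · exact key 10 1 (by decide) (by decide) (by norm_num [cell]) (by norm_num [cell])
  · exact key 1 3 (by decide) (by decide) (by norm_num [cell]) (by norm_num [cell])
  · exact key 11 1 (by decide) (by decide) (by norm_num [cell]) (by norm_num [cell])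
  · exact key 3 2 (by decide) (by decide) (by norm_num [cell]) (by norm_num [cell])
  · exact h21 rfl
  · exact key 12 1 (by decide) (by decide) (by norm_num [cell]) (by norm_num [cell])
  · exact key 13 1 (by decide) (by decide) (by norm_num [cell]) (by norm_num [cell])
  · exact key 4 2 (by decide) (by decide) (by norm_num [cell]) (by norm_num [cell])
  · exact hsq ⟨5, rfl⟩
  · exact key 14 1 (by decide) (by decide) (by norm_num [cell]) (by norm_num [cell])
  · exact key 2 3 (by decide) (by decide) (by norm_num [cell]) (by norm_num [cell])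
  · exact key 5 2 (by decide) (by decide) (by norm_num [cell]) (by norm_num [cell])
  · exact key 15 1 (by decide) (by decide) (by norm_num [cell]) (by norm_num [cell])
  · exact key 16 1 (by decide) (by decide) (by norm_num [cell]) (by norm_num [cell])
  · exact key 17 1 (by decide) (by decide) (by norm_num [cell]) (by norm_num [cell])
  · -- thirty-two
    have h4 : (5 : ℝ) ≤ √((32 : ℕ) : ℝ) := by
      apply Real.le_sqrt_of_sq_le
      norm_num
    have h5 : 1 / (4 * √((32 : ℕ) : ℝ)) ≤ 1 / 20 := by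
      apply div_le_div_of_nonneg_left (by norm_num) (by norm_num) (by linarith)
    refine window h (n := 32) 1 (by decide) 4 (by decide) (lo := 1.203) (up := 0.717) (by norm_num [cell])
      (by norm_num [cell]) d ?_ ?_
    · linarith
    · refine h3.trans ?_
      have := min_le_right (√((32 : ℕ) : ℝ) - 3) (2 / 3 + 1 / (4 * √((32 : ℕ) : ℝ)))
      linarith
  · exact key 18 1 (by decide) (by decide) (by norm_num [cell]) (by norm_num [cell])
  · exact key 19 1 (by decide) (by decide) (by norm_num [cell]) (by norm_num [cell])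
  · exact key 20 1 (by decide) (by decide) (by norm_num [cell]) (by norm_num [cell])
  · exact hsq ⟨6, rfl⟩

/-- **every number of points and every degree** -/
theorem every {m : ℕ} (h : Tgt m) (hm : 1 ≤ m) {n : ℕ} (hn : 10 ≤ n) :
    ∃ F : MvPolynomial (Fin n × Fin 2) ℚ, F ≠ 0 ∧ ∀ P : Fin n → Fin 2 → ℂ,
      MvPolynomial.aeval (fun ij : Fin n × Fin 2 => P ij.1 ij.2) F ≠ 0 →
      ∀ d : ℕ, Pool.Agent.H932R3.ExpDim ℂ (fun _ => m) P d := by
  obtain ⟨F, hF, hF'⟩ := generic hn hm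
  exact ⟨F, hF, fun P hP d => hF' P hP d fun h1 => not_open h hn d h1.2⟩

/-- for general points with rational coefficients of the open condition the space of the curves with
`n` points of multiplicity `m` has the expected dimension in every degree -/
def Ex (n m : ℕ) : Prop := ∃ F : MvPolynomial (Fin n × Fin 2) ℚ, F ≠ 0 ∧ ∀ P : Fin n → Fin 2 → ℂ,
  MvPolynomial.aeval (fun ij : Fin n × Fin 2 => P ij.1 ij.2) F ≠ 0 →
    ∀ d : ℕ, Pool.Agent.H932R3.ExpDim ℂ (fun _ => m) P d

/-- the bound for the proportion of the bad multiplicities -/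
noncomputable def badU (n : ℕ) : ℝ :=
  if 37 ≤ n ∨ n = 13 ∨ n = 21 ∨ IsSquare n then 0
  else if n = 11 ∨ n = 15 then (√(n : ℝ) - 3) / 6
  else (min (√(n : ℝ) - 3) (2 / 3 + 9 / (4 * √(n : ℝ))) +
    min (√(n : ℝ) - 3) (2 / 3 + 1 / (4 * √(n : ℝ)))) / 2

theorem three_lt {n : ℕ} (hn : 10 ≤ n) : (3 : ℝ) < √(n : ℝ) := by
  apply Real.lt_sqrt_of_sq_lt
  have : (10 : ℝ) ≤ n := by exact_mod_cast hn
  linarith

theorem open_of {n m : ℕ} (hn : 10 ≤ n) (hm : 1 ≤ m) (h : ¬ Ex n m) : ∃ d, Open n m d := by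
  by_contra hcon
  push Not at hcon
  apply h
  obtain ⟨F, hF, hF'⟩ := generic hn hm
  exact ⟨F, hF, fun P hP d => hF' P hP d fun h1 => hcon d h1.2⟩

theorem win_nonneg {n : ℕ} (hn : 10 ≤ n) :
    0 ≤ min (√(n : ℝ) - 3) (2 / 3 + 9 / (4 * √(n : ℝ))) ∧
      0 ≤ min (√(n : ℝ) - 3) (2 / 3 + 1 / (4 * √(n : ℝ))) := by
  have h3 := three_lt hn
  constructor <;> refine le_min (by linarith) (by positivity)

theorem badU_lt {n : ℕ} (hn : 10 ≤ n) : badU n < 1 := by
  have hs3 := three_lt hn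
  unfold badU
  split_ifs with h1 h2
  · norm_num
  · have : √(n : ℝ) < 4 := by
      rw [Real.sqrt_lt' (by norm_num)]
      rcases h2 with rfl | rfl <;> norm_num
    linarith
  · have h3 := lo_le hs3.le
    have h4 := up_le hs3.le
    linarith

theorem badU_vals : badU 10 < 0.163 ∧ badU 11 < 0.053 ∧ badU 12 < 0.465 ∧ badU 14 < 0.738 ∧
    badU 15 < 0.146 := by
  have hns : ∀ n : ℕ, 9 < n → n < 16 → ¬ IsSquare n := by
    rintro n h1 h2 ⟨k, hk⟩
    have : k ≤ 3 := by nlinarith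
    interval_cases k <;> omega
  have hC : ∀ n : ℕ, 9 < n → n < 16 → n ≠ 13 → ¬ (37 ≤ n ∨ n = 13 ∨ n = 21 ∨ IsSquare n) := by
    intro n h1 h2 h3 h4
    rcases h4 with h4 | h4 | h4 | h4
    · omega
    · exact h3 h4
    · omega
    · exact hns n h1 h2 h4
  have hA : ∀ n : ℕ, 9 < n → n < 16 → n ≠ 13 → n ≠ 11 → n ≠ 15 → ∀ s : ℝ, √(n : ℝ) < s →
      badU n < s - 3 := by
    intro n h1 h2 h3 h4 h5 s hs
    unfold badU
    rw [if_neg (hC n h1 h2 h3), if_neg (by tauto)]
    have g1 := min_le_left (√(n : ℝ) - 3) (2 / 3 + 9 / (4 * √(n : ℝ)))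
    have g2 := min_le_left (√(n : ℝ) - 3) (2 / 3 + 1 / (4 * √(n : ℝ)))
    linarith
  have hB : ∀ n : ℕ, n = 11 ∨ n = 15 → ∀ s : ℝ, √(n : ℝ) < s → badU n < (s - 3) / 6 := by
    intro n h1 s hs
    unfold badU
    rw [if_neg (hC n (by omega) (by omega) (by omega)), if_pos h1]
    linarith
  refine ⟨?_, ?_, ?_, ?_, ?_⟩
  · refine (hA 10 (by norm_num) (by norm_num) (by norm_num) (by norm_num) (by norm_num) 3.1623
      (by rw [Real.sqrt_lt' (by norm_num)]; norm_num)).trans (by norm_num)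
  · refine (hB 11 (Or.inl rfl) 3.3168 (by rw [Real.sqrt_lt' (by norm_num)]; norm_num)).trans
      (by norm_num)
  · refine (hA 12 (by norm_num) (by norm_num) (by norm_num) (by norm_num) (by norm_num) 3.4642
      (by rw [Real.sqrt_lt' (by norm_num)]; norm_num)).trans (by norm_num)
  · have h14 : √((14 : ℕ) : ℝ) < 3.7417 := by rw [Real.sqrt_lt' (by norm_num)]; norm_num
    have h14' : 3.7 < √((14 : ℕ) : ℝ) := by
      apply Real.lt_sqrt_of_sq_lt
      norm_num
    unfold badU
    rw [if_neg (hC 14 (by norm_num) (by norm_num) (by norm_num)), if_neg (by norm_num)]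
    have g1 := min_le_left (√((14 : ℕ) : ℝ) - 3) (2 / 3 + 9 / (4 * √((14 : ℕ) : ℝ)))
    have g2 := min_le_right (√((14 : ℕ) : ℝ) - 3) (2 / 3 + 1 / (4 * √((14 : ℕ) : ℝ)))
    have g3 : 1 / (4 * √((14 : ℕ) : ℝ)) ≤ 1 / (4 * 3.7) := by
      apply div_le_div_of_nonneg_left (by norm_num) (by norm_num) (by linarith)
    have g4 : (1 : ℝ) / (4 * 3.7) ≤ 0.0676 := by norm_num
    linarith
  · refine (hB 15 (Or.inr rfl) 3.873 (by rw [Real.sqrt_lt' (by norm_num)]; norm_num)).trans
      (by norm_num)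

/-- expected dimension in every degree -/
def ExN {n : ℕ} (w : Fin n → ℕ) : Prop := ∃ F : MvPolynomial (Fin n × Fin 2) ℚ, F ≠ 0 ∧
  ∀ P : Fin n → Fin 2 → ℂ, MvPolynomial.aeval (fun ij : Fin n × Fin 2 => P ij.1 ij.2) F ≠ 0 →
    ∀ d : ℕ, Pool.Agent.H932R3.ExpDim ℂ w P d

/-- all near-uniform vectors of sum `W` -/
def GoodN (n W : ℕ) : Prop :=
  ∀ m : ℕ, 0 < m → ∀ w : Fin n → ℕ, (∀ i, w i = m ∨ w i = m + 1) → ∑ i, w i = W → ExN w

/-- the bound for the proportion of the bad sums -/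
noncomputable def badN (n : ℕ) : ℝ :=
  if IsSquare n then 0
  else (min (√(n : ℝ) - 3) (2 / 3 + 9 / (4 * √(n : ℝ))) +
    min (√(n : ℝ) - 3) (2 / 3 + 1 / (4 * √(n : ℝ)))) / 2

theorem good_sq {n : ℕ} (hn : 10 ≤ n) (hsq : IsSquare n) (W : ℕ) : GoodN n W := by
  intro m hm w hw _
  obtain ⟨s, hs⟩ := hsq
  have hs2 : 2 ≤ s := by
    by_contra hcon
    have : s ≤ 1 := by omega
    have := Nat.mul_le_mul this this
    omega
  exact Pool.Agent.H932R3.near_points (L := ℂ) (w := w) hn hm hw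
    (Pool.Agent.H932R3.near_cond (by omega) hw (Or.inr ⟨s, 0, hs2, by rw [hs]; ring, Or.inl rfl⟩))

theorem window_near {n : ℕ} (hn : 10 ≤ n) {W : ℕ} (h : ¬ GoodN n W) : ∃ z : ℤ,
    -(upW n / 2) ≤ (√(n : ℝ))⁻¹ * W + (√(n : ℝ) - 3) / 2 - z ∧
      (√(n : ℝ))⁻¹ * W + (√(n : ℝ) - 3) / 2 - z ≤ loW n / 2 := by
  by_contra hcon
  push Not at hcon
  apply h
  intro m hm w hw hsum
  obtain ⟨F, hF, hF'⟩ := exp_near2 (L := ℂ) hn hm hw
  refine ⟨F, hF, fun P hP d => hF' P hP d ?_⟩
  have e0 : (∑ i, (w i : ℝ)) = (W : ℝ) := by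
    rw [← hsum]
    push_cast
    rfl
  have e1 : 2 * (∑ i, (w i : ℝ)) / √(n : ℝ) = 2 * ((√(n : ℝ))⁻¹ * W) := by
    rw [e0, div_eq_mul_inv]
    ring
  rw [e1]
  have h2 := hcon (d : ℤ)
  push_cast at h2
  rcases le_or_gt (-(upW n / 2)) ((√(n : ℝ))⁻¹ * W + (√(n : ℝ) - 3) / 2 - d) with h4 | h4
  · right
    have := h2 h4
    linarith
  · left
    linarith

theorem badN_lt {n : ℕ} (hn : 10 ≤ n) : badN n < 1 := by
  obtain ⟨g1, g2, g3⟩ := win_len hn
  unfold loW upW at g3
  unfold badN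
  split_ifs
  · norm_num
  · linarith

/-- **near-uniform vectors, sequences of sums** -/
theorem near_seq {n : ℕ} (hn : 10 ≤ n) {s : ℕ → Finset ℕ} {v : ℕ → ℤ} (h : AlgSmall s v)
    {δ : ℝ} (hδ : 0 < δ) : ∀ᶠ N : ℕ in atTop,
      ({t : ℕ | t ∈ s N ∧ ∃ W : ℕ, 1 ≤ W ∧ (W : ℤ) = v t ∧ ¬ GoodN n W}.ncard : ℝ) ≤
        (badN n + δ) * (s N).card := by
  classical
  have hs3 := three_lt hn
  by_cases hsq : IsSquare n
  · have e : badN n = 0 := by
      unfold badN
      rw [if_pos hsq]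
    rw [e, zero_add]
    exact Eventually.of_forall fun N =>
      count_zero (bad := fun m => ¬ GoodN n m) (fun m _ hbad => hbad (good_sq hn hsq m)) hδ.le N
  · have hirr : Irrational (√(n : ℝ))⁻¹ := (irrational_sqrt_natCast_iff.2 hsq).inv
    obtain ⟨g1, g2, g3⟩ := win_len hn
    have e : badN n = loW n / 2 - (-(upW n / 2)) := by
      unfold badN loW upW
      rw [if_neg hsq]
      ring
    rw [e]
    exact count_seq h hirr (alg_inv_sqrt (by omega)) ((√(n : ℝ) - 3) / 2) (by linarith)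
      (bad := fun m => ¬ GoodN n m) (fun m _ hbad => window_near hn hbad) hδ

/-- **one number of points, sequences of multiplicities** -/
theorem one_seq {n : ℕ} (hn : 10 ≤ n) {s : ℕ → Finset ℕ} {v : ℕ → ℤ} (h : AlgSmall s v)
    {δ : ℝ} (hδ : 0 < δ) : ∀ᶠ N : ℕ in atTop,
      ({t : ℕ | t ∈ s N ∧ ∃ m : ℕ, 1 ≤ m ∧ (m : ℤ) = v t ∧ ¬ Ex n m}.ncard : ℝ) ≤
        (badU n + δ) * (s N).card := by
  classical
  have hs3 := three_lt hn
  by_cases hC : 37 ≤ n ∨ n = 13 ∨ n = 21 ∨ IsSquare n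
  · have e : badU n = 0 := by
      unfold badU
      rw [if_pos hC]
    rw [e, zero_add]
    refine Eventually.of_forall fun N =>
      count_zero (bad := fun m => ¬ Ex n m) (fun m hm hbad => ?_) hδ.le N
    obtain ⟨d, hd⟩ := open_of hn hm hbad
    exact hd.1 hC
  · have hsq : ¬ IsSquare n := fun h0 => hC (Or.inr (Or.inr (Or.inr h0)))
    have hirr : Irrational √(n : ℝ) := irrational_sqrt_natCast_iff.2 hsq
    have halg : IsAlgebraic ℤ √(n : ℝ) := (sqrt_int n).isAlgebraic
    by_cases h11 : n = 11 ∨ n = 15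
    · have e : badU n = 0 - (-((√(n : ℝ) - 3) / 6)) := by
        unfold badU
        rw [if_neg hC, if_pos h11]
        ring
      rw [e]
      have hirr3 : Irrational (√(n : ℝ) / 3) := by
        have := hirr.div_natCast (m := 3) (by norm_num)
        simpa using this
      have halg3 : IsAlgebraic ℤ (√(n : ℝ) / 3) := by
        refine ⟨Polynomial.C 9 * Polynomial.X ^ 2 - Polynomial.C (n : ℤ), ?_, ?_⟩
        · intro h0
          have h1 := congrArg (fun Q : Polynomial ℤ => Q.coeff 2) h0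
          rw [Polynomial.coeff_sub, Polynomial.coeff_C_mul, Polynomial.coeff_X_pow,
            Polynomial.coeff_C] at h1
          norm_num at h1
        · have h1 : (√(n : ℝ)) ^ 2 = n := Real.sq_sqrt (Nat.cast_nonneg n)
          simp only [map_sub, map_mul, map_pow, Polynomial.aeval_X, map_natCast, map_ofNat]
          rw [div_pow, h1]
          norm_num
          ring
      refine count_seq h hirr3 halg3 0 (by linarith) (bad := fun m => ¬ Ex n m)
        (fun m hm hbad => ?_) hδ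
      obtain ⟨d, -, h1, h2, h3⟩ := open_of hn hm hbad
      obtain ⟨⟨z, rfl⟩, h4, h5⟩ := h3 h11
      push_cast at h4 h5
      refine ⟨z, ?_, ?_⟩
      · push_cast
        linarith
      · push_cast
        linarith
    · obtain ⟨g1, g2⟩ := win_nonneg hn
      have e : badU n = min (√(n : ℝ) - 3) (2 / 3 + 9 / (4 * √(n : ℝ))) / 2 -
          (-(min (√(n : ℝ) - 3) (2 / 3 + 1 / (4 * √(n : ℝ))) / 2)) := by
        unfold badU
        rw [if_neg hC, if_neg h11]
        ring
      rw [e]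
      refine count_seq h hirr halg ((√(n : ℝ) - 3) / 2) (by linarith)
        (bad := fun m => ¬ Ex n m)
        (fun m hm hbad => ?_) hδ
      obtain ⟨d, -, h1, h2, -⟩ := open_of hn hm hbad
      refine ⟨d, ?_, ?_⟩
      · push_cast
        linarith
      · push_cast
        linarith

end Pool.Agent.Run7.h823.NG
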