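import Pool.Agent.Run7.h823.NG.S2
import Pool.Agent.Run7.h823.NG.S3

/-!
The multiplicities, and the sums of near-uniform multiplicities, in families of residues with small Fourier coefficients.
-/

set_option autoImplicit false

namespace Pool.Agent.Run7.h823.NG

open Finset Filter

/-- one number of points, multiplicities -/
theorem one_flat {n : ℕ} (hn : 10 ≤ n) {δ : ℝ} (hδ : 0 < δ) : ∃ K : ℕ, 0 < K ∧ ∀ (q : ℕ) [NeZero q], K ≤ q →
    ∀ (τ : Type) (s : Finset τ) (y : τ → ZMod q), Flat1 q (1 / (K * Real.log q)) s y → ∀ c : ℤ,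
      ({i : τ | i ∈ s ∧ ∃ m : ℕ, 1 ≤ m ∧ (m : ℤ) = c + ((y i).val : ℕ) ∧ ¬ Ex n m}.ncard : ℝ) ≤
        (badU n + δ) * (s.card : ℝ) := by
  apply transferS (fun z => ∃ m : ℕ, 1 ≤ m ∧ (m : ℤ) = z ∧ ¬ Ex n m) (fun a b => (b : ℝ) ≤ (badU n + δ) * (a : ℝ))
  intro S v h
  exact one_seq hn h hδ

/-- near-uniform multiplicities, sums -/
theorem near_flat {n : ℕ} (hn : 10 ≤ n) {δ : ℝ} (hδ : 0 < δ) : ∃ K : ℕ, 0 < K ∧ ∀ (q : ℕ) [NeZero q], K ≤ q →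
    ∀ (τ : Type) (s : Finset τ) (y : τ → ZMod q), Flat1 q (1 / (K * Real.log q)) s y → ∀ c : ℤ,
      ({i : τ | i ∈ s ∧ ∃ W : ℕ, 1 ≤ W ∧ (W : ℤ) = c + ((y i).val : ℕ) ∧ ¬ GoodN n W}.ncard : ℝ) ≤
        (badN n + δ) * (s.card : ℝ) := by
  apply transferS (fun z => ∃ W : ℕ, 1 ≤ W ∧ (W : ℤ) = z ∧ ¬ GoodN n W) (fun a b => (b : ℝ) ≤ (badN n + δ) * (a : ℝ))
  intro S v h
  exact near_seq hn h hδ

/-- the sum zero is good -/
theorem good_zero {n : ℕ} (hn : 10 ≤ n) : GoodN n 0 := by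
  intro m hm w hw hsum
  exfalso
  have h1 : w ⟨0, by omega⟩ = 0 := by
    have := (Finset.sum_eq_zero_iff.1 hsum) ⟨0, by omega⟩ (mem_univ _)
    exact this
  rcases hw ⟨0, by omega⟩ with h | h <;> omega

end Pool.Agent.Run7.h823.NG
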