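import Pool.Agent.Y961.JR.Disc
import Pool.Agent.H469R2.NK.KL
import Pool.Agent.H383.LinIndep

/-!
(The statements and proofs of this file are copied from `Pool.Agent.N141.SG` (Arc, Joint, Seq1, Seq5) of helper141, with
fewer imports.)

Sequences of integers with small exponential sums at the irrational algebraic frequencies: the multiples by square roots
are uniformly distributed modulo one.
-/

set_option autoImplicit false

namespace Pool.Agent.Run7.h823.NG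

open Finset Filter
open Pool.Agent.H469R2.NK (e norm_e e_add conj_e)
open Pool.Agent.Y961.JR (discJ)

/-- exponential sums of smaller order -/
def SmallTo (s : ℕ → Finset ℕ) (x : ℕ → ℝ) : Prop :=
  ∀ ε : ℝ, 0 < ε → ∀ᶠ N : ℕ in atTop, ‖∑ n ∈ s N, e (x n)‖ ≤ ε * (s N).card

theorem SmallTo.add_const {s : ℕ → Finset ℕ} {x : ℕ → ℝ} (h : SmallTo s x) (b : ℝ) :
    SmallTo s (fun n => x n + b) := by
  intro ε hε
  filter_upwards [h ε hε] with N hN
  have e1 : ∑ n ∈ s N, e (x n + b) = (∑ n ∈ s N, e (x n)) * e b := by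
    rw [sum_mul]
    exact sum_congr rfl fun n _ => e_add _ _
  rw [e1, norm_mul, norm_e, mul_one]
  exact hN

/-- boxes modulo one in several dimensions -/
theorem boxesR {r : ℕ} (hr : 1 ≤ r) {s : ℕ → Finset ℕ} {x : ℕ → Fin r → ℝ}
    (h : ∀ g : Fin r → ℤ, g ≠ 0 → SmallTo s (fun n => ∑ j, (g j : ℝ) * x n j))
    {q : ℕ} (hq : 1 ≤ q) {δ : ℝ} (hδ : 0 < δ) : ∀ᶠ N : ℕ in atTop, ∀ ρ : Fin r → ℤ,
      (1 / (q : ℝ) ^ r - δ) * (s N).card ≤
        (((s N).filter (fun n => ∀ j, (q : ℤ) ∣ ⌊(q : ℝ) * x n j⌋ - ρ j)).card : ℝ) := by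
  classical
  have hq0 : (0 : ℝ) < q := by exact_mod_cast hq
  obtain ⟨K, hK⟩ := exists_nat_ge (3 * (q : ℝ) + 1 + 2 * (q : ℝ) ^ r * (3 * r + 4) / δ)
  have hp0 : 0 ≤ 2 * (q : ℝ) ^ r * (3 * r + 4) / δ := by positivity
  have hK0 : (0 : ℝ) < K := lt_of_lt_of_le (by positivity) hK
  have hKn : 1 ≤ K := by exact_mod_cast hK0
  have h3q : 3 * q ≤ K := by
    have : 3 * (q : ℝ) ≤ K := by linarith
    exact_mod_cast this
  have hKδ : (q : ℝ) ^ r * ((3 * r + 4) / K) ≤ δ / 2 := by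
    have h1 : 2 * (q : ℝ) ^ r * (3 * r + 4) / δ ≤ K := by linarith
    rw [div_le_iff₀ hδ] at h1
    rw [← mul_div_assoc, div_le_iff₀ hK0]
    nlinarith
  set E : ℝ := δ / 2 / ((q : ℝ) ^ r * (K : ℝ) ^ (3 * r)) with hE
  have hE0 : 0 < E := by positivity
  set B : Finset (Fin r → ℤ) := Fintype.piFinset
    (fun _ => Finset.Ioo (-((K : ℤ) ^ 3)) ((K : ℤ) ^ 3)) with hB
  have hev : ∀ᶠ N : ℕ in atTop, ∀ g ∈ B, g ≠ 0 →
      ‖∑ n ∈ s N, e (∑ j, (g j : ℝ) * x n j)‖ ≤ E * (s N).card := by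
    rw [Filter.eventually_all_finset]
    intro g _
    by_cases hg : g ≠ 0
    · filter_upwards [h g hg E hE0] with N hN _
      exact hN
    · exact Eventually.of_forall fun N hg' => absurd hg' hg
  filter_upwards [hev] with N hN ρ
  have h1 := discJ (r := r) hr (s N) (fun n j => (q : ℝ) * x n j) K q
    hKn hq h3q (E * (s N).card) (by positivity) (by
      intro g hg hgK
      have h3 := hN g (Fintype.mem_piFinset.2 fun k => by
        have h2 := hgK k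
        rw [Finset.mem_Ioo, ← abs_lt, Int.abs_eq_natAbs]
        exact_mod_cast h2) hg
      refine le_trans (le_of_eq ?_) h3
      congr 1
      refine sum_congr rfl fun n _ => ?_
      congr 1
      refine sum_congr rfl fun j _ => ?_
      field_simp) ρ
  have h3 := (abs_le.1 h1).1
  have h4 : (q : ℝ) ^ r * ((3 * r + 4) * (s N).card / K + (K : ℝ) ^ (3 * r) * (E * (s N).card)) =
      ((q : ℝ) ^ r * ((3 * r + 4) / K) + (q : ℝ) ^ r * (K : ℝ) ^ (3 * r) * E) * (s N).card := by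
    ring
  rw [h4] at h3
  have h5 : (q : ℝ) ^ r * (K : ℝ) ^ (3 * r) * E = δ / 2 := by
    rw [hE]
    field_simp
  rw [h5] at h3
  have h6 : ((q : ℝ) ^ r * ((3 * r + 4) / K) + δ / 2) * (s N).card ≤ δ * (s N).card :=
    mul_le_mul_of_nonneg_right (by linarith) (Nat.cast_nonneg _)
  have h7 : (1 / (q : ℝ) ^ r - δ) * (s N).card = (s N).card / (q : ℝ) ^ r - δ * (s N).card := by ring
  rw [h7]
  linarith

/-- the radicands -/
def rad : Fin 21 → ℕ := ![1, 2, 3, 5, 6, 7, 10, 11, 14, 15, 17, 19, 22, 23, 26, 29, 30, 31, 33, 34, 35]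

theorem rad_squarefree (j : Fin 21) : Squarefree (rad j) := by
  fin_cases j <;> simp only [rad] <;> decide +kernel

theorem rad_injective : Function.Injective rad := by
  decide +kernel

/-- the square roots are linearly independent -/
theorem rad_indep {g : Fin 21 → ℤ} (h : ∑ j, (g j : ℝ) * √(rad j : ℝ) = 0) : g = 0 := by
  have h1 : LinearIndependent ℚ (fun j : Fin 21 => √(rad j : ℝ)) :=
    Pool.Agent.H383.Gauss.sf_indep.comp (fun j : Fin 21 => ⟨rad j, rad_squarefree j⟩)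
      (fun i j hij => rad_injective (congrArg Subtype.val hij))
  rw [Fintype.linearIndependent_iff] at h1
  have h2 := h1 (fun j => (g j : ℚ)) (by
    rw [← h]
    refine sum_congr rfl fun j _ => ?_
    rw [Rat.smul_def]
    push_cast
    rfl)
  funext j
  exact_mod_cast h2 j

/-- the cells -/
def cell (j : Fin 21) : ℤ := if (j : ℕ) = 0 then 0 else if (j : ℕ) ≤ 2 then 350 else
  if (j : ℕ) ≤ 5 then 600 else 1200

/-- the target for a multiplicity -/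
def Tgt (m : ℤ) : Prop := ∀ j : Fin 21, (j : ℕ) ≠ 0 → ∃ z : ℤ,
  ((cell j : ℝ) - 6) / 10000 ≤ √(rad j : ℝ) * m + √(rad j : ℝ) / 2 - z ∧
    √(rad j : ℝ) * m + √(rad j : ℝ) / 2 - z ≤ ((cell j : ℝ) + 1) / 10000

theorem rad_le (j : Fin 21) : √(rad j : ℝ) ≤ 6 := by
  rw [show (6 : ℝ) = √(36 : ℝ) by
    rw [show (36 : ℝ) = 6 ^ 2 by norm_num, Real.sqrt_sq (by norm_num)]]
  apply Real.sqrt_le_sqrt
  have : rad j ≤ 36 := by
    fin_cases j <;> simp [rad]
  exact_mod_cast this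

theorem of_dvd {x : ℝ} {ρ : ℤ} (h : ((10000 : ℕ) : ℤ) ∣ ⌊((10000 : ℕ) : ℝ) * x⌋ - ρ) :
    ∃ z : ℤ, (ρ : ℝ) / 10000 ≤ x - z ∧ x - z < ((ρ : ℝ) + 1) / 10000 := by
  obtain ⟨z, hz⟩ := h
  have h1 : ⌊((10000 : ℕ) : ℝ) * x⌋ = 10000 * z + ρ := by
    push_cast at hz ⊢
    linarith
  have h2 := Int.floor_le (((10000 : ℕ) : ℝ) * x)
  have h3 := Int.lt_floor_add_one (((10000 : ℕ) : ℝ) * x)
  rw [h1] at h2 h3
  push_cast at h2 h3
  refine ⟨z, ?_, ?_⟩
  · rw [div_le_iff₀ (by norm_num)]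
    linarith
  · rw [lt_div_iff₀ (by norm_num)]
    linarith

theorem sqrt_int (n : ℕ) : IsIntegral ℤ (√(n : ℝ)) := by
  apply IsIntegral.of_pow (n := 2) (by norm_num)
  rw [Real.sq_sqrt (Nat.cast_nonneg n)]
  exact isIntegral_algebraMap (R := ℤ) (A := ℝ) (x := (n : ℤ))

/-- a frequency of the box condition -/
def Freq (θ : ℝ) : Prop := Irrational θ ∧ IsIntegral ℤ θ

theorem freq_of {g : Fin 20 → ℤ} (hg : g ≠ 0) :
    Freq (∑ j : Fin 20, (g j : ℝ) * √(rad j.succ : ℝ)) := by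
  constructor
  · rintro ⟨x, hx⟩
    apply hg
    have hd : (x.den : ℝ) ≠ 0 := by exact_mod_cast x.den_nz
    have h2 := rad_indep (g := Fin.cons (-x.num) (fun j => (x.den : ℤ) * g j)) (by
      rw [Fin.sum_univ_succ]
      simp only [Fin.cons_zero, Fin.cons_succ]
      have h3 : ∑ j : Fin 20, (((x.den : ℤ) * g j : ℤ) : ℝ) * √(rad j.succ : ℝ) =
          x.den * (x : ℝ) := by
        rw [hx, mul_sum]
        exact sum_congr rfl fun j _ => by push_cast; ring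
      rw [h3]
      have h4 : (x.den : ℝ) * (x : ℝ) = x.num := by
        rw [mul_comm]
        exact_mod_cast Rat.mul_den_eq_num x
      rw [h4]
      have : rad 0 = 1 := rfl
      rw [this]
      simp)
    funext j
    have h3 := congrFun h2 j.succ
    simp only [Fin.cons_succ, Pi.zero_apply, mul_eq_zero] at h3
    rcases h3 with h3 | h3
    · exact absurd h3 (by exact_mod_cast x.den_nz)
    · exact h3
  · refine IsIntegral.sum _ fun j _ => IsIntegral.mul ?_ (sqrt_int _)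
    exact isIntegral_algebraMap (R := ℤ) (A := ℝ) (x := g j)

/-- all radicands at once along a sequence of integers -/
theorem tgt_of_freq {s : ℕ → Finset ℕ} {v : ℕ → ℤ}
    (h : ∀ θ : ℝ, Freq θ → SmallTo s (fun n => θ * v n)) : ∀ᶠ N : ℕ in atTop,
      1 / 10000 ^ 22 * ((s N).card : ℝ) ≤ ({n : ℕ | n ∈ s N ∧ Tgt (v n)}.ncard : ℝ) := by
  classical
  have h1 := boxesR (r := 20) (by norm_num) (s := s)
    (x := fun n j => √(rad j.succ : ℝ) * v n + √(rad j.succ : ℝ) / 2)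
    (by
      intro g hg
      have h2 := (h _ (freq_of hg)).add_const (∑ j : Fin 20, (g j : ℝ) * (√(rad j.succ : ℝ) / 2))
      have e1 : (fun n : ℕ => ∑ j : Fin 20, (g j : ℝ) * (√(rad j.succ : ℝ) * v n + √(rad j.succ : ℝ) / 2)) =
          fun n : ℕ => (∑ j : Fin 20, (g j : ℝ) * √(rad j.succ : ℝ)) * v n +
            ∑ j : Fin 20, (g j : ℝ) * (√(rad j.succ : ℝ) / 2) := by
        funext n
        rw [sum_mul, ← sum_add_distrib]
        exact sum_congr rfl fun j _ => by ring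
      rw [e1]
      exact h2) (q := 10000) (by norm_num) (δ := 1 / 10000 ^ 20 - 1 / 10000 ^ 22) (by norm_num)
  filter_upwards [h1] with N hN
  have h2 := hN (fun j => cell j.succ)
  have e1 : (1 / ((10000 : ℕ) : ℝ) ^ 20 - (1 / 10000 ^ 20 - 1 / 10000 ^ 22)) = 1 / 10000 ^ 22 := by
    push_cast
    ring
  rw [e1] at h2
  refine h2.trans ?_
  rw [← Set.ncard_coe_finset]
  have hfin : {m : ℕ | m ∈ s N ∧ Tgt (v m)}.Finite :=
    (Finset.finite_toSet (s N)).subset fun m hm => hm.1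
  have hsub : (((s N).filter (fun n : ℕ => ∀ j : Fin 20, ((10000 : ℕ) : ℤ) ∣
      ⌊((10000 : ℕ) : ℝ) * (√(rad j.succ : ℝ) * v n + √(rad j.succ : ℝ) / 2)⌋ -
        cell j.succ) : Finset ℕ) : Set ℕ) ⊆ {m : ℕ | m ∈ s N ∧ Tgt (v m)} := by
    intro n hn
    rw [Finset.mem_coe, Finset.mem_filter] at hn
    refine ⟨hn.1, fun j hj => ?_⟩
    have hj0 : j ≠ 0 := fun h0 => hj (by rw [h0]; rfl)
    obtain ⟨i, rfl⟩ := Fin.exists_succ_eq.2 hj0
    obtain ⟨z, h5, h6⟩ := of_dvd (hn.2 i)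
    refine ⟨z, ?_, ?_⟩
    · refine le_trans ?_ h5
      apply div_le_div_of_nonneg_right _ (by norm_num)
      linarith
    · exact h6.le
  exact_mod_cast Set.ncard_le_ncard hsub hfin

/-- cells modulo one, upper bounds -/
theorem cellsU {s : ℕ → Finset ℕ} {x : ℕ → ℝ}
    (h : ∀ k : ℤ, k ≠ 0 → SmallTo s (fun n => (k : ℝ) * x n))
    {q : ℕ} (hq : 1 ≤ q) {δ : ℝ} (hδ : 0 < δ) : ∀ᶠ N : ℕ in atTop, ∀ i : ℤ,
      (((s N).filter (fun n => (q : ℤ) ∣ ⌊(q : ℝ) * x n⌋ - i)).card : ℝ) ≤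
        (1 / (q : ℝ) + δ) * (s N).card := by
  classical
  have hq0 : (0 : ℝ) < q := by exact_mod_cast hq
  obtain ⟨K, hK⟩ := exists_nat_ge (3 * (q : ℝ) + 1 + 14 * (q : ℝ) / δ)
  have hp0 : 0 ≤ 14 * (q : ℝ) / δ := by positivity
  have hK0 : (0 : ℝ) < K := lt_of_lt_of_le (by positivity) hK
  have hKn : 1 ≤ K := by exact_mod_cast hK0
  have h3q : 3 * q ≤ K := by
    have : 3 * (q : ℝ) ≤ K := by linarith
    exact_mod_cast this
  have hKδ : (q : ℝ) * (7 / K) ≤ δ / 2 := by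
    have h1 : 14 * (q : ℝ) / δ ≤ K := by linarith
    rw [div_le_iff₀ hδ] at h1
    rw [← mul_div_assoc, div_le_iff₀ hK0]
    nlinarith
  set E : ℝ := δ / 2 / ((q : ℝ) * (K : ℝ) ^ 3) with hE
  have hE0 : 0 < E := by positivity
  have hev : ∀ᶠ N : ℕ in atTop, ∀ k ∈ Finset.Ioo (-((K : ℤ) ^ 3)) ((K : ℤ) ^ 3), k ≠ 0 →
      ‖∑ n ∈ s N, e ((k : ℝ) * x n)‖ ≤ E * (s N).card := by
    rw [Filter.eventually_all_finset]
    intro g _
    by_cases hg : g ≠ 0
    · filter_upwards [h g hg E hE0] with N hN _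
      exact hN
    · exact Eventually.of_forall fun N hg' => absurd hg' hg
  filter_upwards [hev] with N hN i
  have h1 := discJ (r := 1) le_rfl (s N) (fun n _ => (q : ℝ) * x n) K q
    hKn hq h3q (E * (s N).card) (by positivity) (by
      intro g hg hgK
      have h3 := hN (g 0) (by
        have h2 := hgK 0
        rw [Finset.mem_Ioo, ← abs_lt, Int.abs_eq_natAbs]
        exact_mod_cast h2) (by
          intro h0
          apply hg
          funext k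
          have : k = 0 := Subsingleton.elim _ _
          rw [this, h0]
          rfl)
      refine le_trans (le_of_eq ?_) h3
      congr 1
      refine sum_congr rfl fun n _ => ?_
      congr 1
      rw [Fin.sum_univ_one]
      field_simp) (fun _ => i)
  have h2 : ((s N).filter (fun n => ∀ _ : Fin 1, (q : ℤ) ∣ ⌊(q : ℝ) * x n⌋ - i)) =
      (s N).filter (fun n => (q : ℤ) ∣ ⌊(q : ℝ) * x n⌋ - i) := by
    refine Finset.filter_congr fun n _ => ?_
    exact ⟨fun h => h 0, fun h _ => h⟩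
  rw [h2] at h1
  have h3 := (abs_le.1 h1).2
  have h4 : (q : ℝ) ^ 1 * ((3 * ((1 : ℕ) : ℝ) + 4) * (s N).card / K + (K : ℝ) ^ (3 * 1) * (E * (s N).card)) =
      ((q : ℝ) * (7 / K) + (q : ℝ) * (K : ℝ) ^ 3 * E) * (s N).card := by
    push_cast
    norm_num
    ring
  rw [h4] at h3
  have h5 : (q : ℝ) * (K : ℝ) ^ 3 * E = δ / 2 := by
    rw [hE]
    field_simp
  rw [h5] at h3
  have h6 : ((q : ℝ) * (7 / K) + δ / 2) * (s N).card ≤ δ * (s N).card := by
    refine mul_le_mul_of_nonneg_right (by linarith) (Nat.cast_nonneg _)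
  have h7 : (1 / (q : ℝ) + δ) * (s N).card = (s N).card / (q : ℝ) ^ 1 + δ * (s N).card := by ring
  rw [h7]
  linarith

/-- arcs -/
theorem arc1 {s : ℕ → Finset ℕ} {x : ℕ → ℝ}
    (h : ∀ k : ℤ, k ≠ 0 → SmallTo s (fun n => (k : ℝ) * x n))
    {lo hi : ℝ} (hlh : lo ≤ hi) {δ : ℝ} (hδ : 0 < δ) : ∀ᶠ N : ℕ in atTop,
      ({n : ℕ | n ∈ s N ∧ ∃ z : ℤ, lo ≤ x n - z ∧ x n - z ≤ hi}.ncard : ℝ) ≤
        (hi - lo + δ) * (s N).card := by
  classical
  obtain ⟨q, hq⟩ := exists_nat_ge (4 / δ + 1)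
  have hp0 : 0 ≤ 4 / δ := by positivity
  have hq0 : (0 : ℝ) < q := by linarith
  have hqn : 1 ≤ q := by exact_mod_cast hq0
  have hqδ : 2 ≤ δ / 2 * q := by
    have h1 : 4 / δ ≤ q := by linarith
    rw [div_le_iff₀ hδ] at h1
    linarith
  set ℓ : ℝ := hi - lo + δ / 2 with hℓ
  have hℓ0 : 0 < ℓ := by rw [hℓ]; linarith
  set δ' : ℝ := δ / 2 / ((q : ℝ) * ℓ) with hδ'
  have hδ'0 : 0 < δ' := by positivity
  filter_upwards [cellsU h hqn hδ'0] with N hN
  set I : Finset ℤ := Finset.Icc ⌊(q : ℝ) * lo⌋ ⌊(q : ℝ) * hi⌋ with hI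
  have hmono : ⌊(q : ℝ) * lo⌋ ≤ ⌊(q : ℝ) * hi⌋ :=
    Int.floor_le_floor (mul_le_mul_of_nonneg_left hlh hq0.le)
  have hIc : (I.card : ℝ) ≤ q * ℓ := by
    rw [hI, Int.card_Icc]
    have h1 : ((⌊(q : ℝ) * hi⌋ + 1 - ⌊(q : ℝ) * lo⌋).toNat : ℝ) =
        ((⌊(q : ℝ) * hi⌋ + 1 - ⌊(q : ℝ) * lo⌋ : ℤ) : ℝ) := by
      have : (((⌊(q : ℝ) * hi⌋ + 1 - ⌊(q : ℝ) * lo⌋).toNat : ℤ)) =
        (⌊(q : ℝ) * hi⌋ + 1 - ⌊(q : ℝ) * lo⌋ : ℤ) :=
        Int.toNat_of_nonneg (by omega)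
      exact_mod_cast congrArg (fun z : ℤ => (z : ℝ)) this
    rw [h1]
    push_cast
    have h2 := Int.floor_le ((q : ℝ) * hi)
    have h3 := Int.lt_floor_add_one ((q : ℝ) * lo)
    rw [hℓ]
    linarith
  have hsub : {n : ℕ | n ∈ s N ∧ ∃ z : ℤ, lo ≤ x n - z ∧ x n - z ≤ hi} ⊆
      ((I.biUnion fun i => (s N).filter (fun n => (q : ℤ) ∣ ⌊(q : ℝ) * x n⌋ - i) :
        Finset ℕ) : Set ℕ) := by
    rintro n ⟨hn, z, hz1, hz2⟩
    rw [Finset.mem_coe]
    have hfl : ⌊(q : ℝ) * x n⌋ = ⌊(q : ℝ) * (x n - z)⌋ + q * z := by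
      have : (q : ℝ) * x n = (q : ℝ) * (x n - z) + ((q * z : ℤ) : ℝ) := by
        push_cast
        ring
      rw [this, Int.floor_add_intCast]
    refine Finset.mem_biUnion.2 ⟨⌊(q : ℝ) * (x n - z)⌋, ?_, ?_⟩
    · rw [hI, Finset.mem_Icc]
      exact ⟨Int.floor_le_floor (mul_le_mul_of_nonneg_left hz1 hq0.le),
        Int.floor_le_floor (mul_le_mul_of_nonneg_left hz2 hq0.le)⟩
    · rw [Finset.mem_filter]
      refine ⟨hn, ?_⟩
      rw [hfl]
      exact ⟨z, by ring⟩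
  have h1 : ({n : ℕ | n ∈ s N ∧ ∃ z : ℤ, lo ≤ x n - z ∧ x n - z ≤ hi}.ncard : ℝ) ≤
      ((I.biUnion fun i => (s N).filter (fun n => (q : ℤ) ∣ ⌊(q : ℝ) * x n⌋ - i)).card : ℝ) := by
    have := Set.ncard_le_ncard hsub (Finset.finite_toSet _)
    rw [Set.ncard_coe_finset] at this
    exact_mod_cast this
  refine h1.trans ?_
  have hD0 : 0 ≤ (1 / (q : ℝ) + δ') * (s N).card := by positivity
  calc ((I.biUnion fun i => (s N).filter (fun n => (q : ℤ) ∣ ⌊(q : ℝ) * x n⌋ - i)).card : ℝ)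
      ≤ ∑ i ∈ I, (((s N).filter (fun n => (q : ℤ) ∣ ⌊(q : ℝ) * x n⌋ - i)).card : ℝ) := by
        exact_mod_cast Finset.card_biUnion_le
    _ ≤ ∑ i ∈ I, ((1 / (q : ℝ) + δ') * (s N).card) := Finset.sum_le_sum fun i _ => hN i
    _ = I.card * ((1 / (q : ℝ) + δ') * (s N).card) := by rw [Finset.sum_const, nsmul_eq_mul]
    _ ≤ (q * ℓ) * ((1 / (q : ℝ) + δ') * (s N).card) := mul_le_mul_of_nonneg_right hIc hD0
    _ = (ℓ + (q : ℝ) * ℓ * δ') * (s N).card := by field_simp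
    _ = (hi - lo + δ) * (s N).card := by
        have h5 : (q : ℝ) * ℓ * δ' = δ / 2 := by
          rw [hδ']
          field_simp
        rw [h5, hℓ]
        ring

/-- the exponential sums over the sequence are small at all irrational algebraic frequencies -/
def AlgSmall (s : ℕ → Finset ℕ) (v : ℕ → ℤ) : Prop :=
  ∀ θ : ℝ, Irrational θ → IsAlgebraic ℤ θ → SmallTo s (fun t => θ * v t)

/-- the bad members of a sequence of integers -/
theorem count_seq {s : ℕ → Finset ℕ} {v : ℕ → ℤ} (h : AlgSmall s v) {α : ℝ}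
    (hirr : Irrational α) (halg : IsAlgebraic ℤ α) (β : ℝ) {lo hi : ℝ} (hlh : lo ≤ hi)
    {bad : ℕ → Prop}
    (hbad : ∀ m : ℕ, 1 ≤ m → bad m → ∃ z : ℤ, lo ≤ α * m + β - z ∧ α * m + β - z ≤ hi)
    {δ : ℝ} (hδ : 0 < δ) : ∀ᶠ N : ℕ in atTop,
      ({t : ℕ | t ∈ s N ∧ ∃ m : ℕ, 1 ≤ m ∧ (m : ℤ) = v t ∧ bad m}.ncard : ℝ) ≤
        (hi - lo + δ) * (s N).card := by
  have h1 : ∀ k : ℤ, k ≠ 0 → SmallTo s (fun t => (k : ℝ) * (α * v t + β)) := by
    intro k hk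
    have h2 := (h ((k : ℝ) * α) (hirr.intCast_mul hk)
      ((isAlgebraic_intCast k).mul halg)).add_const (k * β)
    have e1 : (fun t => (k : ℝ) * (α * v t + β)) = fun t => (k : ℝ) * α * v t + k * β := by
      funext t
      ring
    rw [e1]
    exact h2
  filter_upwards [arc1 h1 hlh hδ] with N hN
  refine le_trans ?_ hN
  have hsub : {t : ℕ | t ∈ s N ∧ ∃ m : ℕ, 1 ≤ m ∧ (m : ℤ) = v t ∧ bad m} ⊆
      {n : ℕ | n ∈ s N ∧ ∃ z : ℤ, lo ≤ α * v n + β - z ∧ α * v n + β - z ≤ hi} := by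
    rintro t ⟨ht, m, hm, hmv, hb⟩
    obtain ⟨z, h3, h4⟩ := hbad m hm hb
    refine ⟨ht, z, ?_, ?_⟩
    · rw [← hmv]
      exact_mod_cast h3
    · rw [← hmv]
      exact_mod_cast h4
  exact_mod_cast Set.ncard_le_ncard hsub ((Finset.finite_toSet (s N)).subset fun n hn => hn.1)

/-- nothing is bad -/
theorem count_zero {s : ℕ → Finset ℕ} {v : ℕ → ℤ} {bad : ℕ → Prop}
    (hbad : ∀ m : ℕ, 1 ≤ m → ¬ bad m) {δ : ℝ} (hδ : 0 ≤ δ) (N : ℕ) :
      ({t : ℕ | t ∈ s N ∧ ∃ m : ℕ, 1 ≤ m ∧ (m : ℤ) = v t ∧ bad m}.ncard : ℝ) ≤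
        δ * (s N).card := by
  have : {t : ℕ | t ∈ s N ∧ ∃ m : ℕ, 1 ≤ m ∧ (m : ℤ) = v t ∧ bad m} = ∅ := by
    rw [Set.eq_empty_iff_forall_notMem]
    rintro t ⟨_, m, hm, _, hb⟩
    exact hbad m hm hb
  rw [this, Set.ncard_empty, Nat.cast_zero]
  positivity

theorem alg_inv_sqrt {n : ℕ} (hn : 1 ≤ n) : IsAlgebraic ℤ (√(n : ℝ))⁻¹ := by
  refine ⟨Polynomial.C (n : ℤ) * Polynomial.X ^ 2 - Polynomial.C 1, ?_, ?_⟩
  · intro h0
    have h1 := congrArg (fun Q : Polynomial ℤ => Q.coeff 2) h0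
    simp [Polynomial.coeff_one] at h1
    omega
  · have h1 : (√(n : ℝ)) ^ 2 = n := Real.sq_sqrt (Nat.cast_nonneg n)
    have h2 : (n : ℝ) ≠ 0 := by
      have : n ≠ 0 := by omega
      exact_mod_cast this
    simp only [map_sub, map_mul, map_pow, Polynomial.aeval_X, map_natCast, map_one]
    rw [inv_pow, h1, mul_inv_cancel₀ h2, sub_self]

end Pool.Agent.Run7.h823.NG
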