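import Pool.Agent.Run7.h823.NG.S1
import Pool.Agent.Run7.h823.WF.B

/-!
The transfer from sequences with small exponential sums at the irrational algebraic frequencies to families of residues
modulo `q` whose Fourier coefficients at the nonzero frequencies are at most `1 / (K log q)` times their number.
-/

set_option autoImplicit false
set_option linter.unusedSectionVars false

namespace Pool.Agent.Run7.h823.NG

open Finset Filter
open Pool.Agent.H469R2.NK (e norm_e e_add)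
open Pool.Agent.H807R2.Dav (ee norm_ee ee_add)
open Pool.Agent.Run7.h823.WF (blk seq card_blk card_blk_filter sum_blk char_le)

/-- The Fourier coefficients of the residues `y i`, `i ∈ s`, modulo `q` at the nonzero frequencies are at most `η` times
their number. -/
def Flat1 {τ : Type} (q : ℕ) [NeZero q] (η : ℝ) (s : Finset τ) (y : τ → ZMod q) : Prop :=
  ∀ h : ZMod q, h ≠ 0 → ‖∑ i ∈ s, (ZMod.stdAddChar (h * y i) : ℂ)‖ ≤ η * s.card

lemma flat_unit {τ : Type} {q : ℕ} [NeZero q] {η : ℝ} {s : Finset τ} {y : τ → ZMod q} (h : Flat1 q η s y) :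
    Pool.Agent.Run7.h823.WF.Flat q η s (fun i (_ : Unit) => y i) := by
  intro g hg
  have h0 : g () ≠ 0 := fun h0 => hg (by
    funext j
    exact h0)
  have h1 := h (g ()) h0
  have e1 : ∀ i, (∑ j : Unit, g j * y i) = g () * y i := fun i => by simp
  simp only [e1]
  exact h1

lemma ee_e (x : ℝ) : ee x = e x := by
  unfold Pool.Agent.H469R2.NK.e Pool.Agent.H807R2.Dav.ee
  congr 1
  push_cast
  ring

/-- the distance of an irrational number to the integers -/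
lemma dist_pos {θ : ℝ} (hθ : Irrational θ) : ∃ δ : ℝ, 0 < δ ∧ ∀ m : ℤ, δ ≤ |θ - m| := by
  refine ⟨|θ - round θ|, ?_, fun m => round_le θ m⟩
  rw [abs_pos, sub_ne_zero]
  exact hθ.ne_int _

lemma sum_small {τ : Type} {q : ℕ} [NeZero q] {η : ℝ} (hη : 0 ≤ η) {s : Finset τ} {y : τ → ZMod q} (h : Flat1 q η s y)
    (c : ℤ) {θ δ : ℝ} (hδ : 0 < δ) (hd : ∀ m : ℤ, δ ≤ |θ - m|) :
    ‖∑ i ∈ s, e (θ * ((c + ((y i).val : ℕ) : ℤ) : ℝ))‖ ≤ s.card * (1 / (δ * q) + η * (42 + 3 * Real.log q)) := by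
  classical
  have h1 := char_le (ι := Unit) q η hη s (fun i _ => y i) (flat_unit h) (fun _ => θ) () δ hδ hd
  rw [Fintype.card_unit, pow_one] at h1
  refine le_trans (le_of_eq ?_) h1
  have e1 : ∑ i ∈ s, e (θ * ((c + ((y i).val : ℕ) : ℤ) : ℝ)) =
      e (θ * c) * ∑ i ∈ s, ∏ _j : Unit, ee (θ * ((y i).val : ℕ)) := by
    rw [mul_sum]
    refine sum_congr rfl fun i _ => ?_
    rw [Fintype.prod_unique, ee_e, ← e_add]
    congr 1
    push_cast
    ring
  rw [e1, norm_mul, norm_e, one_mul]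

/-- **Transfer.** -/
theorem transferS (P : ℤ → Prop) (C : ℕ → ℕ → Prop)
    (h : ∀ (S : ℕ → Finset ℕ) (v : ℕ → ℤ), AlgSmall S v →
      ∀ᶠ N : ℕ in atTop, C (S N).card ({t : ℕ | t ∈ S N ∧ P (v t)}.ncard)) :
    ∃ K : ℕ, 0 < K ∧ ∀ (q : ℕ) [NeZero q], K ≤ q → ∀ (τ : Type) (s : Finset τ) (y : τ → ZMod q),
      Flat1 q (1 / (K * Real.log q)) s y → ∀ c : ℤ, C s.card ({i : τ | i ∈ s ∧ P (c + ((y i).val : ℕ))}.ncard) := by
  classical
  by_contra hcon
  push Not at hcon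
  choose q hq hle τ s y hf c hC using fun N : ℕ => hcon (N + 1) (Nat.succ_pos N)
  obtain ⟨T, hT⟩ : ∃ T : ∀ N : ℕ, Σ τ : Type, Finset τ, T = fun N => ⟨τ N, s N⟩ := ⟨_, rfl⟩
  subst hT
  obtain ⟨V, hV⟩ : ∃ V : ∀ N : ℕ, τ N → Unit → ℤ, V = fun N i _ => c N + ((y N i).val : ℕ) := ⟨_, rfl⟩
  have hsmall : AlgSmall (blk fun N => ⟨τ N, s N⟩) (fun n => seq (fun N => ⟨τ N, s N⟩) V n ()) := by
    intro θ hθ _ ε hε
    obtain ⟨δ, hδ, hd⟩ := dist_pos hθ
    obtain ⟨M, hM⟩ := exists_nat_gt (2 / (δ * ε) + 90 / ε + 3)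
    filter_upwards [eventually_ge_atTop M] with N hN
    have h1 : ∑ n ∈ blk (fun N => ⟨τ N, s N⟩) N, e (θ * ((seq (fun N => ⟨τ N, s N⟩) V n () : ℤ) : ℝ)) =
        ∑ i ∈ s N, e (θ * ((c N + ((y N i).val : ℕ) : ℤ) : ℝ)) := by
      have h2 := sum_blk (ι := Unit) (M := ℂ) (fun N => ⟨τ N, s N⟩) V N (fun w => e (θ * ((w () : ℤ) : ℝ)))
      rw [hV] at h2 ⊢
      exact h2
    rw [h1, card_blk]
    have hMN : (M : ℝ) ≤ N := by exact_mod_cast hN
    have hNq : (N : ℝ) + 1 ≤ q N := by exact_mod_cast hle N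
    have hp1 : 0 < 2 / (δ * ε) := by positivity
    have hp2 : 0 < 90 / ε := by positivity
    have hq3 : (3 : ℝ) ≤ q N := by linarith
    have hq0 : (0 : ℝ) < q N := by linarith
    have hlog : 1 ≤ Real.log (q N) := by
      rw [Real.le_log_iff_exp_le hq0]
      have := Real.exp_one_lt_d9
      linarith
    have hN1 : (0 : ℝ) < ((N + 1 : ℕ) : ℝ) := by positivity
    have h3 := sum_small (by positivity) (hf N) (c N) hδ hd
    refine h3.trans ?_
    rw [mul_comm]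
    apply mul_le_mul_of_nonneg_right _ (Nat.cast_nonneg _)
    have h4 : 1 / (δ * (q N : ℝ)) ≤ ε / 2 := by
      rw [div_le_iff₀ (by positivity)]
      have h5 : 2 / (δ * ε) ≤ q N := by linarith
      rw [div_le_iff₀ (by positivity)] at h5
      nlinarith
    have h6 : 1 / (((N + 1 : ℕ) : ℝ) * Real.log (q N)) * (42 + 3 * Real.log (q N)) ≤ ε / 2 := by
      have h7 : 42 + 3 * Real.log (q N) ≤ 45 * Real.log (q N) := by linarith
      have h8 : 90 / ε ≤ ((N + 1 : ℕ) : ℝ) := by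
        push_cast
        linarith
      rw [div_le_iff₀ hε] at h8
      rw [div_mul_eq_mul_div, one_mul, div_le_iff₀ (by positivity)]
      nlinarith
    linarith
  obtain ⟨N₀, hN₀⟩ := eventually_atTop.1 (h _ _ hsmall)
  have h9 := hN₀ N₀ le_rfl
  apply hC N₀
  rw [card_blk] at h9
  have e2 : {t : ℕ | t ∈ blk (fun N => ⟨τ N, s N⟩) N₀ ∧ P (seq (fun N => ⟨τ N, s N⟩) V t ())} =
      ↑((blk (fun N => ⟨τ N, s N⟩) N₀).filter (fun t => P (seq (fun N => ⟨τ N, s N⟩) V t ()))) := by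
    ext n
    simp
  have e3 : {i : τ N₀ | i ∈ s N₀ ∧ P (c N₀ + ((y N₀ i).val : ℕ))} =
      ↑((s N₀).filter (fun i => P (V N₀ i ()))) := by
    ext i
    rw [hV]
    simp
  rw [e2, Set.ncard_coe_finset, card_blk_filter (ι := Unit) (fun N => ⟨τ N, s N⟩) V N₀ (fun w => P (w ()))] at h9
  rw [e3, Set.ncard_coe_finset]
  exact h9

end Pool.Agent.Run7.h823.NG
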